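import Pool.Agent.Work.MP_0d8d6b_gt.Defs
import Pool.Agent.Work.MP_0d8d6b_gt.Main

/-!
MP_0d8d6b_gt, Q1: negative answer, in ZFC.

There is a (zero-dimensional, `T₄`, Lindelöf) space `X` on which One has a winning strategy in
`G₁(𝒦_X, Ω_X)` but no winning predetermined strategy.
-/

namespace Pool.Agent.Results.MP_0d8d6b_gt.NegativeAnswer

open Pool.Agent.Work.MP_0d8d6b_gt

/-- There is a topological space `X`, moreover `T₄` (normal Hausdorff), Lindelöf and with a basis
of clopen sets, such that One has a winning strategy in `G₁(𝒦_X, Ω_X)` but has no winning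
predetermined strategy in that game. -/
theorem result : ∃ (X : Type) (_ : TopologicalSpace X),
    T4Space X ∧ LindelofSpace X ∧
      TopologicalSpace.IsTopologicalBasis {s : Set X | IsClopen s} ∧
      OneWins X ∧ ¬ OneWinsPredetermined X :=
  main

end Pool.Agent.Results.MP_0d8d6b_gt.NegativeAnswer
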